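import Mathlib

namespace Pool.Agent.Results.MP_d015f1_co.Passing

open Function

/-- Some pattern `(S, f)` of `F` appears in the current colouring `c` (`none` = uncoloured). -/
def Appears {G 𝒜 : Type} [Add G] (F : Set (Finset G × (G → 𝒜))) (c : G → Option 𝒜) : Prop :=
  ∃ p ∈ F, ∃ i : G, ∀ s ∈ p.1, c (i + s) = some (p.2 s)

/-- Positions winning for `A`; the last argument is `true` when `A` is to move, and
`pass` says whether passing is allowed. -/
inductive WinA {G 𝒜 : Type} [Add G] [DecidableEq G] (F : Set (Finset G × (G → 𝒜))) (E : Set G)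
    (pass : Bool) : (G → Option 𝒜) → Bool → Prop
  | final (c t) : Appears F c → WinA F E pass c t
  | moveA (c i a) : i ∈ E → c i = none → WinA F E pass (update c i (some a)) false →
      WinA F E pass c true
  | passA (c) : pass = true → WinA F E pass c false → WinA F E pass c true
  | moveB (c) : (∃ i ∈ E, c i = none) →
      (∀ i ∈ E, c i = none → ∀ a, WinA F E pass (update c i (some a)) true) →
      (pass = true → WinA F E pass c true) → WinA F E pass c false

/-- colours `0, 1` are left halves, colours `2, 3` are right halves -/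
def two (x : Fin 4) : Finset ℤ × (ℤ → Fin 4) := ({0, 1}, fun s => if s = 0 then x else x + 2)

def five (x a b d : Fin 4) : Finset ℤ × (ℤ → Fin 4) :=
  ({0, 1, 2, 3, 4}, fun s => if s = 0 then x else if s = 1 then a else if s = 2 then b
    else if s = 3 then d else x + 2)

def F : Set (Finset ℤ × (ℤ → Fin 4)) :=
  {p | ∃ x, x < 2 ∧ p = two x} ∪
    {p | ∃ x a b d, x < 2 ∧ a < 2 ∧ b < 2 ∧ 2 ≤ d ∧ p = five x a b d}

lemma F_finite : F.Finite := by
  apply Set.Finite.union
  · exact (Set.finite_range two).subset (by rintro p ⟨x, -, rfl⟩; exact ⟨x, rfl⟩)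
  · refine (Set.finite_range fun q : Fin 4 × Fin 4 × Fin 4 × Fin 4 =>
      five q.1 q.2.1 q.2.2.1 q.2.2.2).subset ?_
    rintro p ⟨x, a, b, d, -, -, -, -, rfl⟩
    exact ⟨(x, a, b, d), rfl⟩

lemma f1 : ∀ x : Fin 4, 2 ≤ x → x + 2 < 2 := by decide
lemma f2 : ∀ x : Fin 4, x + 2 + 2 = x := by decide

lemma app2 {c : ℤ → Option (Fin 4)} (i : ℤ) (x : Fin 4) (hx : x < 2) (h0 : c i = some x)
    (h1 : c (i + 1) = some (x + 2)) : Appears F c :=
  ⟨two x, Or.inl ⟨x, hx, rfl⟩, i, by simp [two, h0, h1]⟩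

lemma app5 {c : ℤ → Option (Fin 4)} (i : ℤ) (x a b d : Fin 4) (hx : x < 2) (ha : a < 2)
    (hb : b < 2) (hd : 2 ≤ d) (h0 : c i = some x) (h1 : c (i + 1) = some a)
    (h2 : c (i + 2) = some b) (h3 : c (i + 3) = some d) (h4 : c (i + 4) = some (x + 2)) :
    Appears F c :=
  ⟨five x a b d, Or.inr ⟨x, a, b, d, hx, ha, hb, hd, rfl⟩, i, by simp [five, h0, h1, h2, h3, h4]⟩

lemma hotL {c : ℤ → Option (Fin 4)} (i : ℤ) (x : Fin 4) (hx : x < 2) (h0 : c i = some x)
    (h1 : c (i + 1) = none) : WinA F Set.univ false c true :=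
  .moveA c (i + 1) (x + 2) trivial h1 (.final _ _ (app2 i x hx (by simp [h0]) (by simp)))

lemma hotR {c : ℤ → Option (Fin 4)} (i : ℤ) (x : Fin 4) (hx : 2 ≤ x) (h0 : c i = some x)
    (h1 : c (i - 1) = none) : WinA F Set.univ false c true :=
  .moveA c (i - 1) (x + 2) trivial h1 (.final _ _ (app2 (i - 1) (x + 2) (f1 x hx)
    (by simp) (by
      have : x + 2 + 2 = x := f2 x
      rw [sub_add_cancel, update_of_ne (by omega), h0, this])))

lemma winStar : WinA F Set.univ false (fun _ => none) true := by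
  refine .moveA _ 0 0 trivial rfl (.moveB _ ⟨1, trivial, by simp⟩ ?_ (by simp))
  intro i _ hi a
  have hi0 : i ≠ 0 := by rintro rfl; simp at hi
  by_cases e : i = 1
  swap
  · exact hotL 0 0 (by decide) (by simp [hi0.symm]) (by simp [update_apply, Ne.symm e])
  subst e
  by_cases ha : a < 2
  · exact hotL 1 a ha (by simp) (by simp)
  have ha' : 2 ≤ a := not_lt.1 ha
  refine .moveA _ (-1) 0 trivial (by simp) (.moveB _ ⟨2, trivial, by simp⟩ ?_ (by simp))
  intro j _ hj b
  have j1 : j ≠ -1 := by rintro rfl; simp at hj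
  have j2 : j ≠ 0 := by rintro rfl; simp at hj
  have j3 : j ≠ 1 := by rintro rfl; simp at hj
  by_cases hb : b < 2
  · by_cases e : j = -2
    · subst e
      exact .moveA _ 2 (b + 2) trivial (by simp) (.final _ _
        (app5 (-2) b 0 0 a hb (by decide) (by decide) ha' (by simp) (by simp) (by simp) (by simp)
          (by simp)))
    · refine hotL j b hb (by simp) ?_
      rw [update_of_ne (by omega), update_of_ne (by omega), update_of_ne (by omega),
        update_of_ne (by omega)]
  · have hb' : 2 ≤ b := not_lt.1 hb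
    by_cases e : j = 2
    · subst e
      have h1 : b + 2 + 2 = b := f2 b
      exact .moveA _ (-2) (b + 2) trivial (by simp) (.final _ _
        (app5 (-2) (b + 2) 0 0 a (f1 b hb') (by decide) (by decide) ha' (by simp)
          (by simp) (by simp) (by simp) (by simp [h1])))
    · refine hotR j b hb' (by simp) ?_
      rw [update_of_ne (by omega), update_of_ne (by omega), update_of_ne (by omega),
        update_of_ne (by omega)]

def Loc (a b c d e : ℕ) : Prop :=
  a ≤ 4 ∧ (1 ≤ a → a ≤ 2 → b ≠ 0) ∧ (3 ≤ b → a ≠ 0) ∧ (a ≠ 0 → b ≠ a + 2) ∧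
    (1 ≤ b → b ≤ 2 → 1 ≤ c → c ≤ 2 → 3 ≤ d → 3 ≤ e → a ≠ 0 ∧ e ≠ a + 2) ∧
    (1 ≤ a → a ≤ 2 → 1 ≤ b → b ≤ 2 → 1 ≤ c → c ≤ 2 → 3 ≤ d → e ≠ 0)

def St (v : ℤ → ℕ) : Prop := ∀ q, Loc (v q) (v (q + 1)) (v (q + 2)) (v (q + 3)) (v (q + 4))

lemma hL {v : ℤ → ℕ} (h : St v) (q : ℤ) : v q = 0 ∨ 3 ≤ v q ∨ 1 ≤ v (q + 1) := by
  have := (h q).2.1
  omega

lemma hR {v : ℤ → ℕ} (h : St v) (q : ℤ) : v (q + 1) ≤ 2 ∨ 1 ≤ v q := by
  have := (h q).2.2.1
  omega

lemma far {v w : ℤ → ℕ} (h : St v) (hw : ∀ q, q < -4 ∨ 4 < q → w q = v q)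
    (hl : ∀ q : ℤ, -8 ≤ q → q ≤ 4 →
      Loc (w q) (w (q + 1)) (w (q + 2)) (w (q + 3)) (w (q + 4))) : St w := by
  intro q
  by_cases e : -8 ≤ q ∧ q ≤ 4
  · exact hl q e.1 e.2
  · rw [hw q (by omega), hw _ (by omega), hw _ (by omega), hw _ (by omega), hw _ (by omega)]
    exact h q

lemma c1 {v : ℤ → ℕ} {x : ℕ} (h : St v) (h0 : v 0 = 0) (x1 : 1 ≤ x) (x2 : x ≤ 2) (e : v 1 = 0) :
    St (update (update v 0 x) (1) (5 - x)) := by
  have n0 : v (-1) = 0 ∨ 3 ≤ v (-1) := by
    have := hL h (-1); have := hL h (-2); have := hL h 1; have := hL h 2; have := hL h (-5)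
    have := hL h (-4); have := hR h 0; have := hR h 1; have := hR h 4; have := hR h (-2)
    norm_num at *; omega
  have n1 : v 1 ≤ 2 := by
    have := hL h (-1); have := hL h (-2); have := hL h 1; have := hL h 2; have := hL h (-5)
    have := hL h (-4); have := hR h 0; have := hR h 1; have := hR h 4; have := hR h (-2)
    norm_num at *; omega
  have n2 : v 2 ≤ 2 := by
    have := hL h (-1); have := hL h (-2); have := hL h 1; have := hL h 2; have := hL h (-5)
    have := hL h (-4); have := hR h 0; have := hR h 1; have := hR h 4; have := hR h (-2)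
    norm_num at *; omega
  refine far h (by
    intro q hq; rw [update_of_ne (by omega), update_of_ne (by omega)]) ?_
  intro q q1 q2
  have a0 := h q
  have a1 := (h (q + 1)).1
  have a2 := (h (q + 2)).1
  have a3 := (h (q + 3)).1
  have a4 := (h (q + 4)).1
  have a5 := (h 3).1
  clear h
  unfold Loc at *
  interval_cases q <;> norm_num [update_apply] at a0 a1 a2 a3 a4 ⊢ <;> omega

lemma c2 {v : ℤ → ℕ} {x : ℕ} (h : St v) (h0 : v 0 = 0) (x1 : 3 ≤ x) (x2 : x ≤ 4) (e : v (-1) = 0) :
    St (update (update v 0 x) (-1) (5 - x)) := by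
  have n0 : v (-1) = 0 ∨ 3 ≤ v (-1) := by
    have := hL h (-1); have := hL h (-2); have := hL h 1; have := hL h 2; have := hL h (-5)
    have := hL h (-4); have := hR h 0; have := hR h 1; have := hR h 4; have := hR h (-2)
    norm_num at *; omega
  have n1 : v 1 ≤ 2 := by
    have := hL h (-1); have := hL h (-2); have := hL h 1; have := hL h 2; have := hL h (-5)
    have := hL h (-4); have := hR h 0; have := hR h 1; have := hR h 4; have := hR h (-2)
    norm_num at *; omega
  have n2 : v (-2) = 0 ∨ 3 ≤ v (-2) := by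
    have := hL h (-1); have := hL h (-2); have := hL h 1; have := hL h 2; have := hL h (-5)
    have := hL h (-4); have := hR h 0; have := hR h 1; have := hR h 4; have := hR h (-2)
    norm_num at *; omega
  refine far h (by
    intro q hq; rw [update_of_ne (by omega), update_of_ne (by omega)]) ?_
  intro q q1 q2
  have a0 := h q
  have a1 := (h (q + 1)).1
  have a2 := (h (q + 2)).1
  have a3 := (h (q + 3)).1
  have a4 := (h (q + 4)).1
  have a5 := (h 3).1
  clear h
  unfold Loc at *
  interval_cases q <;> norm_num [update_apply] at a0 a1 a2 a3 a4 ⊢ <;> omega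

lemma c3 {v : ℤ → ℕ} {x : ℕ} (h : St v) (h0 : v 0 = 0) (x1 : 1 ≤ x) (x2 : x ≤ 2) (e : v 1 ≠ 0) (e2 : v 2 ≤ 2) (e3 : 3 ≤ v 3) (e4 : v 4 = 0) :
    St (update (update v 0 x) (4) (5 - x)) := by
  have n0 : v (-1) = 0 ∨ 3 ≤ v (-1) := by
    have := hL h (-1); have := hL h (-2); have := hL h 1; have := hL h 2; have := hL h (-5)
    have := hL h (-4); have := hR h 0; have := hR h 1; have := hR h 4; have := hR h (-2)
    norm_num at *; omega
  have n1 : v 1 ≤ 2 := by
    have := hL h (-1); have := hL h (-2); have := hL h 1; have := hL h 2; have := hL h (-5)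
    have := hL h (-4); have := hR h 0; have := hR h 1; have := hR h 4; have := hR h (-2)
    norm_num at *; omega
  have n2 : 1 ≤ v 2 := by
    have := hL h (-1); have := hL h (-2); have := hL h 1; have := hL h 2; have := hL h (-5)
    have := hL h (-4); have := hR h 0; have := hR h 1; have := hR h 4; have := hR h (-2)
    norm_num at *; omega
  have n3 : v 5 ≤ 2 := by
    have := hL h (-1); have := hL h (-2); have := hL h 1; have := hL h 2; have := hL h (-5)
    have := hL h (-4); have := hR h 0; have := hR h 1; have := hR h 4; have := hR h (-2)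
    norm_num at *; omega
  refine far h (by
    intro q hq; rw [update_of_ne (by omega), update_of_ne (by omega)]) ?_
  intro q q1 q2
  have a0 := h q
  have a1 := (h (q + 1)).1
  have a2 := (h (q + 2)).1
  have a3 := (h (q + 3)).1
  have a4 := (h (q + 4)).1
  have a5 := (h 3).1
  clear h
  unfold Loc at *
  interval_cases q <;> norm_num [update_apply] at a0 a1 a2 a3 a4 ⊢ <;> omega

lemma c4 {v : ℤ → ℕ} {x : ℕ} (h : St v) (h0 : v 0 = 0) (x1 : 1 ≤ x) (x2 : x ≤ 2) (e : v 1 ≠ 0) (e2 : 3 ≤ v 2) (e3 : 3 ≤ v 3) (e4 : v (-1) = 0) :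
    St (update (update v 0 x) (-1) (5 - v 3)) := by
  have n0 : v (-1) = 0 ∨ 3 ≤ v (-1) := by
    have := hL h (-1); have := hL h (-2); have := hL h 1; have := hL h 2; have := hL h (-5)
    have := hL h (-4); have := hR h 0; have := hR h 1; have := hR h 4; have := hR h (-2)
    norm_num at *; omega
  have n1 : v 1 ≤ 2 := by
    have := hL h (-1); have := hL h (-2); have := hL h 1; have := hL h 2; have := hL h (-5)
    have := hL h (-4); have := hR h 0; have := hR h 1; have := hR h 4; have := hR h (-2)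
    norm_num at *; omega
  have n2 : v (-2) = 0 ∨ 3 ≤ v (-2) := by
    have := hL h (-1); have := hL h (-2); have := hL h 1; have := hL h 2; have := hL h (-5)
    have := hL h (-4); have := hR h 0; have := hR h 1; have := hR h 4; have := hR h (-2)
    norm_num at *; omega
  refine far h (by
    intro q hq; rw [update_of_ne (by omega), update_of_ne (by omega)]) ?_
  intro q q1 q2
  have a0 := h q
  have a1 := (h (q + 1)).1
  have a2 := (h (q + 2)).1
  have a3 := (h (q + 3)).1
  have a4 := (h (q + 4)).1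
  have a5 := (h 3).1
  clear h
  unfold Loc at *
  interval_cases q <;> norm_num [update_apply] at a0 a1 a2 a3 a4 ⊢ <;> omega

lemma c5 {v : ℤ → ℕ} {x : ℕ} (h : St v) (h0 : v 0 = 0) (x1 : 1 ≤ x) (x2 : x ≤ 2) (e : v 1 ≠ 0) (e2 : ¬ (v 2 ≤ 2 ∧ 3 ≤ v 3 ∧ v 4 = 0))
    (e3 : ¬ (3 ≤ v 2 ∧ 3 ≤ v 3 ∧ v (-1) = 0)) :
    St (update v 0 x) := by
  have n0 : v (-1) = 0 ∨ 3 ≤ v (-1) := by
    have := hL h (-1); have := hL h (-2); have := hL h 1; have := hL h 2; have := hL h (-5)
    have := hL h (-4); have := hR h 0; have := hR h 1; have := hR h 4; have := hR h (-2)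
    norm_num at *; omega
  have n1 : v 1 ≤ 2 := by
    have := hL h (-1); have := hL h (-2); have := hL h 1; have := hL h 2; have := hL h (-5)
    have := hL h (-4); have := hR h 0; have := hR h 1; have := hR h 4; have := hR h (-2)
    norm_num at *; omega
  have n2 : 1 ≤ v 2 := by
    have := hL h (-1); have := hL h (-2); have := hL h 1; have := hL h 2; have := hL h (-5)
    have := hL h (-4); have := hR h 0; have := hR h 1; have := hR h 4; have := hR h (-2)
    norm_num at *; omega
  have n3 : 3 ≤ v 2 ∨ 1 ≤ v 3 := by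
    have := hL h (-1); have := hL h (-2); have := hL h 1; have := hL h 2; have := hL h (-5)
    have := hL h (-4); have := hR h 0; have := hR h 1; have := hR h 4; have := hR h (-2)
    norm_num at *; omega
  refine far h (by
    intro q hq; rw [update_of_ne (by omega)]) ?_
  intro q q1 q2
  have a0 := h q
  have a1 := (h (q + 1)).1
  have a2 := (h (q + 2)).1
  have a3 := (h (q + 3)).1
  have a4 := (h (q + 4)).1
  have a5 := (h 3).1
  clear h
  unfold Loc at *
  interval_cases q <;> norm_num [update_apply] at a0 a1 a2 a3 a4 ⊢ <;> omega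

lemma c6 {v : ℤ → ℕ} {x : ℕ} (h : St v) (h0 : v 0 = 0) (x1 : 3 ≤ x) (x2 : x ≤ 4) (e : v (-1) ≠ 0) (e2 : v (-2) ≤ 2) (e3 : 1 ≤ v (-3))
    (e5 : v (-3) ≤ 2) (e4 : v (-4) = 0) :
    St (update (update v 0 x) (-4) (5 - x)) := by
  have n0 : v (-1) = 0 ∨ 3 ≤ v (-1) := by
    have := hL h (-1); have := hL h (-2); have := hL h 1; have := hL h 2; have := hL h (-5)
    have := hL h (-4); have := hR h 0; have := hR h 1; have := hR h 4; have := hR h (-2)
    norm_num at *; omega
  have n1 : v 1 ≤ 2 := by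
    have := hL h (-1); have := hL h (-2); have := hL h 1; have := hL h 2; have := hL h (-5)
    have := hL h (-4); have := hR h 0; have := hR h 1; have := hR h 4; have := hR h (-2)
    norm_num at *; omega
  have n2 : 1 ≤ v (-2) := by
    have := hL h (-1); have := hL h (-2); have := hL h 1; have := hL h 2; have := hL h (-5)
    have := hL h (-4); have := hR h 0; have := hR h 1; have := hR h 4; have := hR h (-2)
    norm_num at *; omega
  have n3 : v (-5) = 0 ∨ 3 ≤ v (-5) := by
    have := hL h (-1); have := hL h (-2); have := hL h 1; have := hL h 2; have := hL h (-5)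
    have := hL h (-4); have := hR h 0; have := hR h 1; have := hR h 4; have := hR h (-2)
    norm_num at *; omega
  refine far h (by
    intro q hq; rw [update_of_ne (by omega), update_of_ne (by omega)]) ?_
  intro q q1 q2
  have a0 := h q
  have a1 := (h (q + 1)).1
  have a2 := (h (q + 2)).1
  have a3 := (h (q + 3)).1
  have a4 := (h (q + 4)).1
  have a5 := (h 3).1
  clear h
  unfold Loc at *
  interval_cases q <;> norm_num [update_apply] at a0 a1 a2 a3 a4 ⊢ <;> omega

lemma c7 {v : ℤ → ℕ} {x : ℕ} (h : St v) (h0 : v 0 = 0) (x1 : 3 ≤ x) (x2 : x ≤ 4) (e : v (-1) ≠ 0)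
    (e2 : ¬ (v (-2) ≤ 2 ∧ 1 ≤ v (-3) ∧ v (-3) ≤ 2 ∧ v (-4) = 0)) :
    St (update v 0 x) := by
  have n0 : v (-1) = 0 ∨ 3 ≤ v (-1) := by
    have := hL h (-1); have := hL h (-2); have := hL h 1; have := hL h 2; have := hL h (-5)
    have := hL h (-4); have := hR h 0; have := hR h 1; have := hR h 4; have := hR h (-2)
    norm_num at *; omega
  have n1 : v 1 ≤ 2 := by
    have := hL h (-1); have := hL h (-2); have := hL h 1; have := hL h 2; have := hL h (-5)
    have := hL h (-4); have := hR h 0; have := hR h 1; have := hR h 4; have := hR h (-2)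
    norm_num at *; omega
  have n2 : 1 ≤ v (-2) := by
    have := hL h (-1); have := hL h (-2); have := hL h 1; have := hL h 2; have := hL h (-5)
    have := hL h (-4); have := hR h 0; have := hR h 1; have := hR h 4; have := hR h (-2)
    norm_num at *; omega
  have n3 : v (-4) = 0 ∨ 3 ≤ v (-4) ∨ 1 ≤ v (-3) := by
    have := hL h (-1); have := hL h (-2); have := hL h 1; have := hL h 2; have := hL h (-5)
    have := hL h (-4); have := hR h 0; have := hR h 1; have := hR h 4; have := hR h (-2)
    norm_num at *; omega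
  refine far h (by
    intro q hq; rw [update_of_ne (by omega)]) ?_
  intro q q1 q2
  have a0 := h q
  have a1 := (h (q + 1)).1
  have a2 := (h (q + 2)).1
  have a3 := (h (q + 3)).1
  have a4 := (h (q + 4)).1
  have a5 := (h 3).1
  clear h
  unfold Loc at *
  interval_cases q <;> norm_num [update_apply] at a0 a1 a2 a3 a4 ⊢ <;> omega

lemma resp0 {v : ℤ → ℕ} {x : ℕ} (h : St v) (h0 : v 0 = 0) (x1 : 1 ≤ x) (x4 : x ≤ 4) :
    St (update v 0 x) ∨ ∃ r y, update v 0 x r = 0 ∧ 1 ≤ y ∧ y ≤ 4 ∧
      St (update (update v 0 x) r y) := by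
  by_cases hx : x ≤ 2
  · by_cases e : v 1 = 0
    · exact Or.inr ⟨1, 5 - x, by simp [e], by omega, by omega, c1 h h0 x1 hx e⟩
    by_cases e2 : v 2 ≤ 2 ∧ 3 ≤ v 3 ∧ v 4 = 0
    · exact Or.inr ⟨4, 5 - x, by simp [e2], by omega, by omega,
        c3 h h0 x1 hx e e2.1 e2.2.1 e2.2.2⟩
    by_cases e3 : 3 ≤ v 2 ∧ 3 ≤ v 3 ∧ v (-1) = 0
    · have := (h 3).1
      exact Or.inr ⟨-1, 5 - v 3, by simp [e3], by omega, by omega,
        c4 h h0 x1 hx e e3.1 e3.2.1 e3.2.2⟩
    exact Or.inl (c5 h h0 x1 hx e e2 e3)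
  · have hx' : 3 ≤ x := by omega
    by_cases e : v (-1) = 0
    · exact Or.inr ⟨-1, 5 - x, by simp [e], by omega, by omega, c2 h h0 hx' x4 e⟩
    by_cases e2 : v (-2) ≤ 2 ∧ 1 ≤ v (-3) ∧ v (-3) ≤ 2 ∧ v (-4) = 0
    · exact Or.inr ⟨-4, 5 - x, by simp [e2], by omega, by omega,
        c6 h h0 hx' x4 e e2.1 e2.2.1 e2.2.2.1 e2.2.2.2⟩
    exact Or.inl (c7 h h0 hx' x4 e e2)

lemma St_shift {v w : ℤ → ℕ} (p : ℤ) (h : St v) (hw : ∀ q, w q = v (q + p)) : St w := by
  intro q
  have := h (q + p)
  simp only [hw]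
  convert this using 2 <;> ring

lemma resp {v : ℤ → ℕ} {x : ℕ} (p : ℤ) (h : St v) (h0 : v p = 0) (x1 : 1 ≤ x) (x4 : x ≤ 4) :
    St (update v p x) ∨ ∃ r y, update v p x r = 0 ∧ 1 ≤ y ∧ y ≤ 4 ∧
      St (update (update v p x) r y) := by
  have h' : St (fun q => v (q + p)) := St_shift p h fun _ => rfl
  rcases resp0 h' (by simpa using h0) x1 x4 with k | ⟨r, y, k0, k1, k2, k⟩
  · left
    refine St_shift (-p) k fun q => ?_
    simp only [update_apply, neg_add_cancel_right, add_neg_eq_zero]
  · right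
    refine ⟨r + p, y, ?_, k1, k2, St_shift (-p) k fun q => ?_⟩
    · simpa only [update_apply, add_eq_right] using k0
    · simp only [update_apply, neg_add_cancel_right, add_neg_eq_iff_eq_add, zero_add]

def code : Option (Fin 4) → ℕ
  | none => 0
  | some a => a + 1

lemma code_update (c : ℤ → Option (Fin 4)) (i : ℤ) (a : Fin 4) :
    code ∘ update c i (some a) = update (code ∘ c) i (a + 1) := by
  rw [comp_update]; rfl

lemma code_zero {o : Option (Fin 4)} : code o = 0 ↔ o = none := by
  cases o <;> simp [code]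

set_option synthInstance.maxSize 4000 in
lemma noApp {c : ℤ → Option (Fin 4)} (h : St (code ∘ c)) : ¬ Appears F c := by
  rintro ⟨p, ⟨x, hx, rfl⟩ | ⟨x, a, b, d, hx, ha, hb, hd, rfl⟩, i, hi⟩
  · have h0 := hi 0 (by simp [two])
    have h1 := hi 1 (by simp [two])
    have := (h i).2.2.2.1
    simp only [two, add_zero, if_true, one_ne_zero, if_false] at h0 h1
    simp only [comp_apply, h0, h1, code] at this
    clear hi h0 h1
    revert x; decide
  · have h0 := hi 0 (by simp [five])
    have h1 := hi 1 (by simp [five])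
    have h2 := hi 2 (by simp [five])
    have h3 := hi 3 (by simp [five])
    have h4 := hi 4 (by simp [five])
    have := (h i).2.2.2.2.1
    norm_num [five] at h0 h1 h2 h3 h4
    simp only [comp_apply, h0, h1, h2, h3, h4, code] at this
    clear hi h0 h1 h2 h3 h4
    revert x a b d; decide

lemma app_mono {c : ℤ → Option (Fin 4)} {i : ℤ} (hi : c i = none) (a : Fin 4)
    (h : Appears F c) : Appears F (update c i (some a)) := by
  obtain ⟨p, hp, j, hj⟩ := h
  refine ⟨p, hp, j, fun s hs => ?_⟩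
  have := hj s hs
  rw [update_of_ne, this]
  intro e
  rw [e, hi] at this
  simp at this

lemma loses {c : ℤ → Option (Fin 4)} {t : Bool} (h : WinA F Set.univ true c t) :
    ¬ St (code ∘ c) ∧ (t = false → ∀ i a, c i = none → ¬ St (code ∘ update c i (some a))) := by
  induction h with
  | final c t h =>
    exact ⟨fun hs => noApp hs h, fun _ i a hi hs => noApp hs (app_mono hi a h)⟩
  | moveA c i a _ hi _ ih =>
    refine ⟨fun hs => ?_, by simp⟩
    rcases resp (x := a + 1) i hs (code_zero.2 hi) (by omega) (by omega) with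
      k | ⟨r, y, k0, k1, k2, k⟩
    · exact ih.1 (by rwa [code_update])
    · refine ih.2 rfl r ⟨y - 1, by omega⟩ ?_ ?_
      · rw [← code_update] at k0
        exact code_zero.1 k0
      · rw [code_update, code_update]
        have : y - 1 + 1 = y := by omega
        simpa only [this] using k
  | passA c _ _ ih => exact ⟨ih.1, by simp⟩
  | moveB c _ _ _ ih1 ih2 => exact ⟨(ih2 rfl).1, fun _ i a hi => (ih1 i trivial hi a).1⟩

theorem result : ∃ (𝒜 : Type) (_ : Finite 𝒜) (F : Set (Finset ℤ × (ℤ → 𝒜))), F.Finite ∧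
    WinA F Set.univ false (fun _ => none) true ∧ ¬ WinA F Set.univ true (fun _ => none) true := by
  refine ⟨Fin 4, inferInstance, F, F_finite, winStar, fun h => (loses h).1 ?_⟩
  intro q
  simp [Loc, code]

end Pool.Agent.Results.MP_d015f1_co.Passing
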